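import Pool.Agent.R117.HoleCert

set_option autoImplicit false
set_option maxRecDepth 100000

/-!
MP_13ec72_co: the 2-(8,4,3) design of the 14 planes of AG(3,2) has minimal defining sets of
sizes 6 and 8 only: its spectrum has a hole.
-/

namespace Pool.Agent.Results.MP_13ec72_co.PlanesHole

open Finset

/-- `B` is the block set of a simple `t-(v,k,lam)` design on the point set `Fin v`: all blocks have
`k` points and every `t`-set of points is contained in exactly `lam` blocks. -/
def IsDesign (t v k lam : ℕ) (B : Finset (Finset (Fin v))) : Prop :=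
  (∀ b ∈ B, b.card = k) ∧
    ∀ T : Finset (Fin v), T.card = t → (B.filter (fun b => T ⊆ b)).card = lam

/-- `S` is a defining set of the `t-(v,k,lam)` design `D`: `D` is the only `t-(v,k,lam)` design on
the same point set whose block set contains `S`. -/
def IsDefining (t v k lam : ℕ) (D S : Finset (Finset (Fin v))) : Prop :=
  S ⊆ D ∧ ∀ B : Finset (Finset (Fin v)), IsDesign t v k lam B → S ⊆ B → B = D

/-- A defining set no proper subset of which is a defining set. -/
def IsMinimalDefining (t v k lam : ℕ) (D S : Finset (Finset (Fin v))) : Prop :=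
  IsDefining t v k lam D S ∧ ∀ S' : Finset (Finset (Fin v)), S' ⊂ S → ¬ IsDefining t v k lam D S'

/-- The set of the sizes of the minimal defining sets of `D`. -/
def spectrum (t v k lam : ℕ) (D : Finset (Finset (Fin v))) : Set ℕ :=
  {n | ∃ S, IsMinimalDefining t v k lam D S ∧ S.card = n}

/-- A set of numbers has a hole: some number that is not in the set lies strictly between two
members. -/
def HasHole (A : Set ℕ) : Prop := ∃ a ∈ A, ∃ c ∈ A, ∃ m, a < m ∧ m < c ∧ m ∉ A

/-- The 14 planes of the affine space AG(3,2), the point `(x, y, z)` being written as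
`x + 2 y + 4 z`. -/
def planes : Finset (Finset (Fin 8)) :=
  {{0, 1, 2, 3}, {0, 1, 4, 5}, {0, 1, 6, 7}, {0, 2, 4, 6}, {0, 2, 5, 7}, {0, 3, 4, 7}, {0, 3, 5, 6},
   {1, 2, 4, 7}, {1, 2, 5, 6}, {1, 3, 4, 6}, {1, 3, 5, 7}, {2, 3, 4, 5}, {2, 3, 6, 7}, {4, 5, 6, 7}}

/-- **A design whose spectrum has a hole.** The planes of AG(3,2) form a 2-(8,4,3) design; the
sizes of its minimal defining sets (as a 2-(8,4,3) design) are exactly 6 and 8. -/
theorem result :
    IsDesign 2 8 4 3 planes ∧ spectrum 2 8 4 3 planes = {6, 8} ∧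
      HasHole (spectrum 2 8 4 3 planes) := by
  have hpl : planes = Pool.Agent.R117.Hole.pl := by decide +kernel
  have hspec : spectrum 2 8 4 3 planes = {6, 8} := by
    rw [hpl]
    exact Pool.Agent.R117.Hole.spectrum_pl
  refine ⟨?_, hspec, ?_⟩
  · rw [hpl]
    exact Pool.Agent.R117.Hole.pl_design
  · rw [hspec]
    exact ⟨6, by simp, 8, by simp, 7, by norm_num, by norm_num, by simp⟩

end Pool.Agent.Results.MP_13ec72_co.PlanesHole
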